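import Pool.Agent.Q34.GB
import Mathlib.Tactic.IntervalCases

set_option autoImplicit false

namespace Pool.Agent.Results.MP_7d0087_nt.SignFailsAtSeven

open Pool.Agent.Q34

/-- `S_p = ∑_{k<p} C(-1/2,k) C(-1/3,k) / (-4)^k` -/
def S (p : ℕ) : ℚ := hs (-1/2) (-1/3) (-1/4) p

/-- The three statements of Q1 for the prime `p`. The condition `A/B ≡ -1` or `-2 (mod 5)` is
written `5 ∣ A + B` or `5 ∣ A + 2 B` (with `5 ∤ A B`). -/
def Posed (p : ℕ) : Prop :=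
  (∀ A B : ℤ, p % 3 = 1 → (p : ℤ) = A ^ 2 + 3 * B ^ 2 → A % 3 = 1 → 5 ∣ A * B →
    Cong p 2 (S p) (jacobiSym p 5 * (2 * A - p / (2 * A)))) ∧
  (∀ A B : ℤ, p % 3 = 1 → (p : ℤ) = A ^ 2 + 3 * B ^ 2 → A % 3 = 1 → ¬ 5 ∣ A * B →
    (5 ∣ A + B ∨ 5 ∣ A + 2 * B) →
    Cong p 2 (S p) (jacobiSym p 5 * (A + 3 * B - p / (A + 3 * B)))) ∧
  (p % 3 = 2 → Cong p 1 (S p) 0)

/-- The conjunction of Q1 is false: statement 2 fails for `p = 7`, `A = -2`, `B = 1`. -/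
theorem result : ¬ ∀ p : ℕ, p.Prime → 5 < p → Posed p := by
  intro h
  have h7 := (h 7 (by norm_num) (by norm_num)).2.1 (-2) 1 (by norm_num) (by norm_num)
    (by norm_num) (by norm_num) (by norm_num)
  have e : jacobiSym ((7 : ℕ) : ℤ) 5 = -1 := by norm_num
  rw [e, S] at h7
  refine not_cong (by norm_num) ?_ h7
  rw [← (st_spec _ _ _ _).2]
  decide +kernel

end Pool.Agent.Results.MP_7d0087_nt.SignFailsAtSeven
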